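import Pool.Agent.SYZ71.GDefs

/-!
# SYZC/Defs : deformation classes of projective primitive symplectic varieties

A `SymplecticClass` is a connected component of the moduli space of marked primitive symplectic
varieties with `ℚ`-factorial terminal singularities (e.g. of hyperkähler manifolds); its members are
the projective varieties in it. They share the cohomology group `H²(X, ℚ) = H` with its lattice
`L = H²(X, ℤ)` (modulo torsion) and its Beauville-Bogomolov-Fujiki form `q`, the monodromy
group and the set of wall divisors (MBM classes).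
-/

set_option autoImplicit false

open Module

namespace Pool.Agent.SYZC

open Pool.Agent.SYZ71

/-- The data of a deformation class of projective primitive symplectic varieties of dimension `2n`. -/
structure SymplecticClass (n : ℕ) where
  /-- the cohomology group `H²(X, ℚ)` -/
  H : Type
  [addCommGroup : AddCommGroup H]
  [module : Module ℚ H]
  /-- the lattice `H²(X, ℤ)` -/
  L : AddSubgroup H
  /-- the Beauville-Bogomolov-Fujiki form -/
  q : H →ₗ[ℚ] H →ₗ[ℚ] ℚ
  /-- the monodromy group -/
  Mon : Subgroup (H ≃ₗ[ℚ] H)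
  /-- the wall divisors (MBM classes) -/
  S : Set H
  /-- the members of the class, i.e. the projective marked varieties -/
  I : Type
  /-- the variety, with the data of `SYZ71/GDefs` -/
  X : I → Variety ℂ (2 * n)
  /-- the inclusion `NS(X)_ℚ → H²(X, ℚ) = H` given by the marking -/
  c : (i : I) → (X i).NS →ₗ[ℚ] H

attribute [instance] SymplecticClass.addCommGroup SymplecticClass.module

namespace SymplecticClass

variable {n : ℕ} (C : SymplecticClass n)

/-- The group `O(L, q)` of isometries of the lattice. -/
def isoms : Subgroup (C.H ≃ₗ[ℚ] C.H) where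
  carrier := {g | (∀ x y, C.q (g x) (g y) = C.q x y) ∧ ∀ x, g x ∈ C.L ↔ x ∈ C.L}
  one_mem' := ⟨fun _ _ => rfl, fun _ => Iff.rfl⟩
  mul_mem' := by
    intro a b ha hb
    exact ⟨fun x y => (ha.1 (b x) (b y)).trans (hb.1 x y),
      fun x => (ha.2 (b x)).trans (hb.2 x)⟩
  inv_mem' := by
    intro a ha
    refine ⟨fun x y => ?_, fun x => ?_⟩
    · have h := ha.1 (a.symm x) (a.symm y)
      rw [a.apply_symm_apply, a.apply_symm_apply] at h
      exact h.symm
    · have h := ha.2 (a.symm x)
      rw [a.apply_symm_apply] at h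
      exact h.symm

/-- The Eichler transvection `T_(α, w)` (for `q(α,α) = q(α,w) = 0`). -/
noncomputable def transvection (α w x : C.H) : C.H :=
  x + C.q α x • w - (C.q w x + C.q w w / 2 * C.q α x) • α

/-- What is known on a deformation class of projective primitive symplectic varieties with
`ℚ`-factorial terminal singularities and second Betti number at least five. -/
structure Axioms : Prop where
  /-- `L` is a lattice in `H` -/
  fg : C.L.FG
  span : Submodule.span ℚ (C.L : Set C.H) = ⊤
  /-- the form is symmetric, integral on `L`, of signature `(3, b - 3)` -/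
  symm : ∀ x y, C.q x y = C.q y x
  integral : ∀ x ∈ C.L, ∀ y ∈ C.L, ∃ m : ℤ, C.q x y = m
  signature : ∃ P : Submodule ℚ C.H, finrank ℚ P = 3 ∧ (∀ x ∈ P, x ≠ 0 → 0 < C.q x x) ∧
    ∀ x, (∀ y ∈ P, C.q x y = 0) → x ≠ 0 → C.q x x < 0
  /-- the monodromy group has finite index in `O(L, q)` -/
  mon_le : C.Mon ≤ C.isoms
  mon_index : C.Mon.relIndex C.isoms ≠ 0
  /-- the set of wall divisors is stable under the monodromy group, their squares are negative and
  bounded -/
  wall_mem : ∀ s ∈ C.S, s ∈ C.L
  wall_neg : ∀ s ∈ C.S, -s ∈ C.S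
  wall_mon : ∀ γ ∈ C.Mon, ∀ s ∈ C.S, γ s ∈ C.S
  wall_sq : ∀ s ∈ C.S, C.q s s < 0
  wall_bound : ∃ K : ℚ, ∀ s ∈ C.S, -K ≤ C.q s s
  /-- standard facts on the members (see `SYZ71/GDefs`) -/
  variety : ∀ i, (C.X i).IsSymplecticVariety n
  /-- the form on `NS(X)_ℚ` is the restriction of `q` -/
  isometry : ∀ i x y, (C.X i).q x y = C.q (C.c i x) (C.c i y)
  /-- line bundles have integral classes, divisor classes span `NS(X)_ℚ` -/
  cartier : ∀ i, ∀ D ∈ (C.X i).Cartier, C.c i ((C.X i).classOf D) ∈ C.L
  spanned : ∀ i x, ∃ m : ℕ, 1 ≤ m ∧ ∃ D : (C.X i).Div, (C.X i).classOf D = (m : ℚ) • x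
  /-- the ample cone is a chamber for the wall divisors in `NS(X)` -/
  ample : ∀ i, ∀ a ∈ (C.X i).Ample, ∀ x, x ∈ (C.X i).Ample ↔
    0 < (C.X i).q x x ∧ 0 < (C.X i).q a x ∧
      ∀ s ∈ C.S, s ∈ LinearMap.range (C.c i) → 0 < C.q (C.c i a) s → 0 < C.q (C.c i x) s
  /-- surjectivity of the period map: a subspace `N` of signature `(1, r)` is the Neron-Severi space
  of a member on which a given class of positive square in `N`, orthogonal to no wall divisor in
  `N`, is ample -/
  period : ∀ N : Submodule ℚ C.H, ∀ A ∈ N, 0 < C.q A A →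
    (∀ x ∈ N, C.q A x = 0 → x ≠ 0 → C.q x x < 0) → (∀ s ∈ C.S, s ∈ N → C.q A s ≠ 0) →
    ∃ i, LinearMap.range (C.c i) = N ∧ ∃ a ∈ (C.X i).Ample, C.c i a = A
  /-- Matsushita: if a nef isotropic class defines a Lagrangian fibration on one member then it
  does so on all members on which it is nef (both sides mean that `κ = n`) -/
  matsushita : ∀ i j (α : (C.X i).Div) (β : (C.X j).Div), (C.X i).IsNefIsotropic α →
    (C.X j).IsNefIsotropic β → C.c i ((C.X i).classOf α) = C.c j ((C.X j).classOf β) →
    (C.X j).KodairaGE β n → (C.X i).KodairaGE α n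

/-- Automorphisms with a common fixed point. Let `α` be nef isotropic on the member `X` and
`w : ℤ^r → NS(X)_ℚ` additive, orthogonal to `α` and injective modulo `α`, such that the
transvections `T_(α, w(v))` are monodromy operators preserving the ample cone. By the Torelli
theorem they are induced by automorphisms; the hypothesis is that, after passing to `N ℤ^r` for some
`N ≥ 1`, these form a group `ℤ^r` with a common fixed point, which acts trivially on the quotients
of sections of multiples of `α` (the latter is a theorem of Lo Bianco). -/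
structure HasActions : Prop where
  action : ∀ i (α : (C.X i).Div), (C.X i).IsNefIsotropic α →
    ∀ (r : ℕ) (w : (Fin r → ℤ) → (C.X i).NS), (∀ u v, w (u + v) = w u + w v) →
    (∀ v, (C.X i).q ((C.X i).classOf α) (w v) = 0) →
    (∀ v, v ≠ 0 → ∀ a : ℚ, w v ≠ a • (C.X i).classOf α) →
    (∀ v, ∃ γ ∈ C.Mon, ∀ x,
      γ x = C.transvection (C.c i ((C.X i).classOf α)) (C.c i (w v)) x) →
    (∀ v, ∀ a ∈ (C.X i).Ample, (C.X i).transvection ((C.X i).classOf α) (w v) a ∈ (C.X i).Ample) →
    ∃ (N : ℕ) (G : (C.X i).Action r α), 1 ≤ N ∧ (∀ v, G.w v = (N : ℚ) • w v) ∧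
      Variety.TrivialOnRatios G.toActionData α

end SymplecticClass

end Pool.Agent.SYZC
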