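import Mathlib

/-!
# SYZC/Sig : forms of signature `(3, b - 3)`

PROOF of `neg_of_orth`.  Suppose `q(x, x) ≥ 0`. Let `W` be the span of `p₁, p₂, p₃, x`. For
`y = a₁ p₁ + a₂ p₂ + a₃ p₃ + c x` one has `q(y, y) = Σ aᵢ² q(pᵢ, pᵢ) + c² q(x, x) ≥ 0`, and `y = 0`
implies `aᵢ = 0` (take `q(pᵢ, y) = 0`), `c = 0`: the four vectors are linearly independent,
`finrank W = 4`. Let `P` be the space of `signature`, and `P' = {y | ∀ z ∈ P, q(y, z) = 0}` (a submodule);
`finrank P' ≥ finrank V - 3` (`P'` is the kernel of the linear map `V → Dual P`, `finrank (Dual P) = 3`).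
So `finrank W + finrank P' > finrank V` and `W ⊓ P'` contains some `y ≠ 0`
(`Submodule.finrank_sup_add_finrank_inf_eq`, `Submodule.finrank_le`). By `signature`
`q(y, y) < 0`, a contradiction.

PROOF of `cauchy`. For all `t : ℚ`: `0 ≥ q(s + t u, s + t u) = q(s,s) + 2 t q(s,u) + t² q(u,u)`. If
`q(u,u) = 0` then `q(s,u) = 0` (otherwise take `t` with `q(s,s) + 2 t q(s,u) > 0`, e.g.
`t = (1 - q(s,s)) / (2 q(s,u))`); if `q(u,u) < 0` take `t = - q(s,u) / q(u,u)`.

PROOF of `exists_plane`. Let `P` be the space of `signature`, `f : P → ℚ` the restriction of `q(α, ·)`.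
`finrank (ker f) ≥ 2`, so there are `x ≠ 0` in `P` with `q(α, x) = 0` and `y` in `P`, `q(α, y) = 0`, not a
multiple of `x`. Put `z = y - (q(x,y) / q(x,x)) x ≠ 0`. Then `q(x,z) = 0`, `q(x,x) > 0`, `q(z,z) > 0`.
Multiply by positive integers to get vectors of `L` (`exists_nsmul_mem`).

PROOF of `exists_nsmul_mem`. The set of `x` with a positive integer multiple in `L` is a `ℚ`-subspace containing
`L`: `Submodule.span_induction`.
-/

set_option autoImplicit false

open Module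

namespace Pool.Agent.SYZC

variable {V : Type*} [AddCommGroup V] [Module ℚ V]

/-- A symmetric form of signature `(3, b - 3)`. -/
structure Signature3 (q : V →ₗ[ℚ] V →ₗ[ℚ] ℚ) : Prop where
  symm : ∀ x y, q x y = q y x
  signature : ∃ P : Submodule ℚ V, finrank ℚ P = 3 ∧ (∀ x ∈ P, x ≠ 0 → 0 < q x x) ∧
    ∀ x, (∀ y ∈ P, q x y = 0) → x ≠ 0 → q x x < 0

theorem neg_of_orth [Module.Finite ℚ V] {q : V →ₗ[ℚ] V →ₗ[ℚ] ℚ} (hq : Signature3 q)
    {p₁ p₂ p₃ x : V} (h₁ : 0 < q p₁ p₁) (h₂ : 0 < q p₂ p₂) (h₃ : 0 < q p₃ p₃)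
    (h₁₂ : q p₁ p₂ = 0) (h₁₃ : q p₁ p₃ = 0) (h₂₃ : q p₂ p₃ = 0)
    (hx₁ : q p₁ x = 0) (hx₂ : q p₂ x = 0) (hx₃ : q p₃ x = 0) (hx : x ≠ 0) : q x x < 0 := by
  by_contra hneg
  rw [not_lt] at hneg
  obtain ⟨P, hP3, -, hPneg⟩ := hq.signature
  have h₂₁ : q p₂ p₁ = 0 := by rw [hq.symm]; exact h₁₂
  have h₃₁ : q p₃ p₁ = 0 := by rw [hq.symm]; exact h₁₃
  have h₃₂ : q p₃ p₂ = 0 := by rw [hq.symm]; exact h₂₃
  have hx₁' : q x p₁ = 0 := by rw [hq.symm]; exact hx₁
  have hx₂' : q x p₂ = 0 := by rw [hq.symm]; exact hx₂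
  have hx₃' : q x p₃ = 0 := by rw [hq.symm]; exact hx₃
  have hli : LinearIndependent ℚ ![p₁, p₂, p₃, x] := by
    rw [Fintype.linearIndependent_iff]
    intro g hg
    rw [Fin.sum_univ_four] at hg
    simp only [Matrix.cons_val_zero, Matrix.cons_val_one, Matrix.cons_val] at hg
    have e1 := congrArg (fun v => q p₁ v) hg
    have e2 := congrArg (fun v => q p₂ v) hg
    have e3 := congrArg (fun v => q p₃ v) hg
    simp only [map_add, map_smul, smul_eq_mul, map_zero, h₁₂, h₁₃, h₂₁, h₂₃, h₃₁, h₃₂, hx₁, hx₂,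
      hx₃, mul_zero, add_zero, zero_add, mul_eq_zero] at e1 e2 e3
    have g0 : g 0 = 0 := e1.resolve_right h₁.ne'
    have g1 : g 1 = 0 := e2.resolve_right h₂.ne'
    have g2 : g 2 = 0 := e3.resolve_right h₃.ne'
    rw [g0, g1, g2, zero_smul, zero_smul, zero_smul, zero_add, zero_add, zero_add,
      smul_eq_zero] at hg
    have g3 : g 3 = 0 := hg.resolve_right hx
    intro i
    fin_cases i
    · exact g0
    · exact g1
    · exact g2
    · exact g3
  have hW : finrank ℚ (Submodule.span ℚ (Set.range ![p₁, p₂, p₃, x])) = 4 := by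
    rw [finrank_span_eq_card hli]
    simp
  set W := Submodule.span ℚ (Set.range ![p₁, p₂, p₃, x]) with hWdef
  set f : V →ₗ[ℚ] Module.Dual ℚ P := P.dualRestrict ∘ₗ q with hf
  have h1 := LinearMap.finrank_range_add_finrank_ker f
  have h2 : finrank ℚ (LinearMap.range f) ≤ 3 := by
    refine (Submodule.finrank_le _).trans ?_
    rw [Subspace.dual_finrank_eq, hP3]
  have h3 := Submodule.finrank_sup_add_finrank_inf_eq W (LinearMap.ker f)
  have h4 : finrank ℚ (W ⊔ LinearMap.ker f : Submodule ℚ V) ≤ finrank ℚ V :=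
    Submodule.finrank_le _
  have h5 : (W ⊓ LinearMap.ker f : Submodule ℚ V) ≠ ⊥ := by
    intro h
    rw [h, finrank_bot] at h3
    omega
  obtain ⟨y, hy, hy0⟩ := Submodule.exists_mem_ne_zero_of_ne_bot h5
  obtain ⟨hyW, hyK⟩ := Submodule.mem_inf.mp hy
  have hyneg : q y y < 0 := by
    refine hPneg y ?_ hy0
    intro z hz
    have h6 : f y = 0 := LinearMap.mem_ker.mp hyK
    have h7 := congrArg (fun φ : Module.Dual ℚ P => φ ⟨z, hz⟩) h6
    simpa [hf] using h7
  rw [hWdef, Submodule.mem_span_range_iff_exists_fun] at hyW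
  obtain ⟨g, hg⟩ := hyW
  rw [Fin.sum_univ_four] at hg
  simp only [Matrix.cons_val_zero, Matrix.cons_val_one, Matrix.cons_val] at hg
  have h8 : q y y = g 0 ^ 2 * q p₁ p₁ + g 1 ^ 2 * q p₂ p₂ + g 2 ^ 2 * q p₃ p₃ +
      g 3 ^ 2 * q x x := by
    rw [← hg]
    simp only [map_add, map_smul, LinearMap.add_apply, LinearMap.smul_apply, smul_eq_mul, h₁₂, h₁₃,
      h₂₁, h₂₃, h₃₁, h₃₂, hx₁, hx₂, hx₃, hx₁', hx₂', hx₃']
    ring
  have h9 : 0 ≤ q y y := by
    rw [h8]
    positivity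
  linarith

/-- The Cauchy-Schwarz inequality for a negative semidefinite form. -/
theorem cauchy {q : V →ₗ[ℚ] V →ₗ[ℚ] ℚ} (hs : ∀ x y, q x y = q y x) {s u : V}
    (h : ∀ t : ℚ, q (s + t • u) (s + t • u) ≤ 0) : q s u ^ 2 ≤ q s s * q u u := by
  have h1 : ∀ t : ℚ, 0 ≤ (-q u u) * (t * t) + (-2 * q s u) * t + (-q s s) := by
    intro t
    have h2 := h t
    simp only [map_add, map_smul, LinearMap.add_apply, LinearMap.smul_apply, smul_eq_mul,
      hs u s] at h2
    nlinarith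
  have h3 := discrim_le_zero h1
  unfold discrim at h3
  nlinarith

theorem exists_nsmul_mem {L : AddSubgroup V} (hL : Submodule.span ℚ (L : Set V) = ⊤) (x : V) :
    ∃ m : ℕ, 1 ≤ m ∧ (m : ℚ) • x ∈ L := by
  have hx : x ∈ Submodule.span ℚ (L : Set V) := by rw [hL]; exact Submodule.mem_top
  induction hx using Submodule.span_induction with
  | mem y hy => exact ⟨1, le_rfl, by simpa using hy⟩
  | zero => exact ⟨1, le_rfl, by simpa using L.zero_mem⟩
  | add y z _ _ hy hz =>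
    obtain ⟨m, hm, hm'⟩ := hy
    obtain ⟨n, hn, hn'⟩ := hz
    refine ⟨m * n, Nat.mul_pos hm hn, ?_⟩
    have h1 : ((m * n : ℕ) : ℚ) • (y + z) = n • ((m : ℚ) • y) + m • ((n : ℚ) • z) := by
      rw [smul_add, ← Nat.cast_smul_eq_nsmul ℚ n, ← Nat.cast_smul_eq_nsmul ℚ m, smul_smul,
        smul_smul]
      push_cast
      rw [mul_comm (n : ℚ) (m : ℚ)]
    rw [h1]
    exact L.add_mem (L.nsmul_mem hm' n) (L.nsmul_mem hn' m)
  | smul r y _ hy =>
    obtain ⟨m, hm, hm'⟩ := hy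
    refine ⟨m * r.den, Nat.mul_pos hm r.den_pos, ?_⟩
    have h1 : ((m * r.den : ℕ) : ℚ) • (r • y) = r.num • ((m : ℚ) • y) := by
      rw [← Int.cast_smul_eq_zsmul ℚ, smul_smul, smul_smul]
      congr 1
      push_cast
      have h2 : r * (r.den : ℚ) = r.num := Rat.mul_den_eq_num r
      rw [← h2]
      ring
    rw [h1]
    exact L.zsmul_mem hm' _

theorem exists_plane [Module.Finite ℚ V] {q : V →ₗ[ℚ] V →ₗ[ℚ] ℚ} (hq : Signature3 q)
    {L : AddSubgroup V} (hL : Submodule.span ℚ (L : Set V) = ⊤) (α : V) :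
    ∃ a ∈ L, ∃ b ∈ L, q α a = 0 ∧ q α b = 0 ∧ q a b = 0 ∧ 0 < q a a ∧ 0 < q b b := by
  obtain ⟨P, hP3, hPpos, -⟩ := hq.signature
  set f : P →ₗ[ℚ] ℚ := (q α) ∘ₗ P.subtype with hf
  have h1 := LinearMap.finrank_range_add_finrank_ker f
  have h2 : finrank ℚ (LinearMap.range f) ≤ 1 := by
    refine (Submodule.finrank_le _).trans ?_
    rw [finrank_self]
  rw [hP3] at h1
  have h3 : 1 < finrank ℚ (LinearMap.ker f) := by omega
  have h4 : (LinearMap.ker f) ≠ ⊥ := by
    intro h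
    rw [h, finrank_bot] at h3
    omega
  obtain ⟨x, hx, hx0⟩ := Submodule.exists_mem_ne_zero_of_ne_bot h4
  have hx0' : (⟨x, hx⟩ : LinearMap.ker f) ≠ 0 := by
    intro h
    exact hx0 (congrArg Subtype.val h)
  obtain ⟨y, hy⟩ := exists_linearIndependent_pair_of_one_lt_finrank h3 hx0'
  have hxpos : 0 < q (x : V) (x : V) := hPpos _ x.2 (by
    intro h
    exact hx0 (Subtype.ext h))
  have hαx : q α (x : V) = 0 := LinearMap.mem_ker.mp hx
  have hαy : q α ((y : P) : V) = 0 := LinearMap.mem_ker.mp y.2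
  set c : ℚ := q (x : V) ((y : P) : V) / q (x : V) (x : V) with hc
  set z : V := ((y : P) : V) - c • (x : V) with hz
  have hzP : z ∈ P := P.sub_mem (y : P).2 (P.smul_mem _ x.2)
  have hz0 : z ≠ 0 := by
    intro h
    rw [LinearIndependent.pair_iff] at hy
    have h5 := hy (-c) 1 (by
      apply Subtype.ext
      apply Subtype.ext
      show (-c) • (x : V) + (1 : ℚ) • ((y : P) : V) = 0
      rw [one_smul, neg_smul, ← h, hz]
      abel)
    exact one_ne_zero h5.2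
  have hzpos : 0 < q z z := hPpos z hzP hz0
  have hxz : q (x : V) z = 0 := by
    rw [hz, map_sub, map_smul, smul_eq_mul, hc, div_mul_cancel₀ _ hxpos.ne', sub_self]
  have hαz : q α z = 0 := by
    rw [hz, map_sub, map_smul, hαx, hαy, smul_zero, sub_zero]
  obtain ⟨m, hm, hm'⟩ := exists_nsmul_mem hL (x : V)
  obtain ⟨n, hn, hn'⟩ := exists_nsmul_mem hL z
  have hm0 : (0 : ℚ) < m := by exact_mod_cast hm
  have hn0 : (0 : ℚ) < n := by exact_mod_cast hn
  refine ⟨(m : ℚ) • (x : V), hm', (n : ℚ) • z, hn', ?_, ?_, ?_, ?_, ?_⟩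
  · rw [map_smul, hαx, smul_zero]
  · rw [map_smul, hαz, smul_zero]
  · rw [map_smul, map_smul, LinearMap.smul_apply, hxz, smul_zero, smul_zero]
  · rw [map_smul, map_smul, LinearMap.smul_apply, smul_eq_mul, smul_eq_mul]
    positivity
  · rw [map_smul, map_smul, LinearMap.smul_apply, smul_eq_mul, smul_eq_mul]
    positivity

/-- An isotropic vector is not in the radical. -/
theorem exists_pos_of_isotropic {q : V →ₗ[ℚ] V →ₗ[ℚ] ℚ} (hq : Signature3 q) {α : V}
    (hα : α ≠ 0) (h0 : q α α = 0) : ∃ y, 0 < q α y := by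
  by_contra hne
  push Not at hne
  obtain ⟨P, -, -, hPneg⟩ := hq.signature
  have h1 : ∀ y, q α y = 0 := by
    intro y
    refine le_antisymm (hne y) ?_
    have h2 := hne (-y)
    rw [map_neg] at h2
    linarith
  have h2 := hPneg α (fun y _ => h1 y) hα
  rw [h0] at h2
  exact lt_irrefl _ h2

end Pool.Agent.SYZC
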