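import Pool.Agent.SYZC.Defs
import Pool.Agent.SYZC.Sig
import Pool.Agent.SYZ71.GA

/-!
# SYZC/Mem : elementary facts on the members of a class
-/

set_option autoImplicit false

open Module

namespace Pool.Agent.SYZC

open Pool.Agent.SYZ71

namespace SymplecticClass

variable {n : ℕ} {C : SymplecticClass n}

theorem sig (hC : C.Axioms) : Signature3 C.q := ⟨hC.symm, hC.signature⟩

theorem finite (hC : C.Axioms) : Module.Finite ℚ C.H := by
  obtain ⟨T, hT⟩ := hC.fg
  refine ⟨⟨T, ?_⟩⟩
  rw [eq_top_iff, ← hC.span, Submodule.span_le]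
  intro x hx
  have h1 : (C.L : Set C.H) ⊆ Submodule.span ℚ (T : Set C.H) := by
    have h2 : C.L ≤ (Submodule.span ℚ (T : Set C.H)).toAddSubgroup := by
      rw [← hT, AddSubgroup.closure_le]
      exact Submodule.subset_span
    exact h2
  exact h1 hx

theorem q_c (hC : C.Axioms) (i : C.I) (x y : (C.X i).NS) :
    C.q (C.c i x) (C.c i y) = (C.X i).q x y := (hC.isometry i x y).symm

theorem c_injective (hC : C.Axioms) (i : C.I) : Function.Injective (C.c i) := by
  rw [← LinearMap.ker_eq_bot, LinearMap.ker_eq_bot']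
  intro x hx
  by_contra h0
  obtain ⟨D, -, hD⟩ := (hC.variety i).exists_ample
  have h1 : ∀ y, (C.X i).q y x = 0 := fun y => by
    rw [hC.isometry, hx, map_zero]
  exact absurd (h1 x) ((hC.variety i).hodge_index _ hD x (h1 _) h0).ne

/-- multiples of a line bundle have the same Kodaira dimension -/
theorem kodairaGE_of_nsmul {k : Type} [Field k] {d : ℕ} {X : Variety k d} {D : X.Div} {M e : ℕ}
    (hM : 1 ≤ M) (h : X.KodairaGE (M • D) e) : X.KodairaGE D e := by
  obtain ⟨m, hm, f, hf, h0, h1⟩ := h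
  refine ⟨m * M, Nat.mul_pos hm hM, f, fun i => ?_, h0, h1⟩
  have h2 := hf i
  rwa [smul_smul] at h2

theorem isNefIsotropic_nsmul {k : Type} [Field k] {X : Variety k (2 * n)} {D : X.Div} {M : ℕ}
    (hM : 1 ≤ M) (h : X.IsNefIsotropic D) : X.IsNefIsotropic (M • D) := by
  have hM0 : (M : ℚ) ≠ 0 := by
    have : 0 < M := hM
    exact_mod_cast this.ne'
  refine ⟨AddSubgroup.nsmul_mem _ h.cartier _, ?_, ?_, ?_⟩
  · rw [Variety.classOf_nsmul]
    exact smul_ne_zero hM0 h.ne_zero
  · rw [Variety.classOf_nsmul]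
    simp [h.isotropic]
  · intro a ha c hc
    rw [Variety.classOf_nsmul, smul_smul]
    exact h.nef a ha _ (mul_nonneg hc (Nat.cast_nonneg _))

end SymplecticClass

end Pool.Agent.SYZC
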