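import Pool.Agent.SYZC.Sig

/-!
# SYZC/Cham : the chamber at `α` in the space orthogonal to a positive plane

Let `a, b` be orthogonal vectors of positive square, orthogonal to the isotropic vector `α`, such that no wall
orthogonal to `a` and `b` is orthogonal to `α`. `N = {x | q(a,x) = q(b,x) = 0}` has signature `(1, b - 3)`.

PROOF of `light`. Suppose `q(x,y) ≤ 0`... Let `z = q(A,y) x - q(A,x) y`. Then `q(a,z) = q(b,z) = q(A,z) = 0`, and
`q(z,z) = q(A,y)² q(x,x) - 2 q(A,x) q(A,y) q(x,y) + q(A,x)² q(y,y) > 0` (`q(x,x) > 0`, `q(y,y) ≥ 0`,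
`q(x,y) ≤ 0`, `q(A,x) > 0`, `q(A,y) > 0`). So `z ≠ 0` and `neg_of_orth` (with `p = (a, b, A)`) gives `q(z,z) < 0`, a
contradiction.

PROOF of `adjacent`. By `exists_pos_of_isotropic` there is `y₀` with `q(α,y₀) > 0`. Put
`y = y₀ - (q(a,y₀)/q(a,a)) a - (q(b,y₀)/q(b,b)) b`; `q(a,y) = q(b,y) = 0`, `c = q(α,y) = q(α,y₀) > 0`. For `t : ℚ` let
`A = t α + y`: `q(α,A) = c`, `q(A,A) = 2 t c + q(y,y)`; choose `t` with `q(A,A) > max (K c²) 0`. Let
`s ∈ S` with `q(a,s) = q(b,s) = 0` and `q(α,s) > 0`; suppose `q(A,s) ≤ 0`. Let `λ = - q(A,s) / c ≥ 0` and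
`x = s + λ α`. Then `q(A,x) = 0`, `q(α,x) = q(α,s) ≥ 1` (integrality, `α ∈ L`), and
`q(x,x) = q(s,s) + 2 λ q(α,s) ≥ -K`. Let `α' = α - (c / q(A,A)) A`; `q(A,α') = 0`, `q(x,α') = q(x,α)`,
`q(α',α') = - c² / q(A,A)`. For all `t'`: `x + t' α'` is orthogonal to `a, b, A`, so by `neg_of_orth` (or it is `0`)
its square is `≤ 0`. `cauchy`: `1 ≤ q(x,α)² ≤ q(x,x) q(α',α') = - q(x,x) c² / q(A,A) ≤ K c² / q(A,A) < 1`
(`K ≥ 0` may be assumed, or note that `-q(x,x) ≤ K` and `c²/q(A,A) > 0`). A contradiction.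
-/

set_option autoImplicit false

open Module

namespace Pool.Agent.SYZC

variable {V : Type*} [AddCommGroup V] [Module ℚ V]

/-- Two vectors in the closed positive cone, on the same side, one of positive square. -/
theorem light [Module.Finite ℚ V] {q : V →ₗ[ℚ] V →ₗ[ℚ] ℚ} (hq : Signature3 q) {a b A x y : V}
    (hab : q a b = 0) (haa : 0 < q a a) (hbb : 0 < q b b) (haA : q a A = 0) (hbA : q b A = 0)
    (hAA : 0 < q A A) (hax : q a x = 0) (hbx : q b x = 0) (hay : q a y = 0) (hby : q b y = 0)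
    (hxx : 0 < q x x) (hyy : 0 ≤ q y y) (hAx : 0 < q A x) (hAy : 0 < q A y) : 0 < q x y := by
  by_contra hcon
  have hxy : q x y ≤ 0 := not_lt.1 hcon
  have hyx : q y x = q x y := hq.symm y x
  have h1 : q a (q A y • x - q A x • y) = 0 := by simp [hax, hay]
  have h2 : q b (q A y • x - q A x • y) = 0 := by simp [hbx, hby]
  have h3 : q A (q A y • x - q A x • y) = 0 := by
    simp only [map_sub, map_smul, smul_eq_mul]; ring
  have h4 : q (q A y • x - q A x • y) (q A y • x - q A x • y) =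
      q A y ^ 2 * q x x - 2 * (q A x * q A y) * q x y + q A x ^ 2 * q y y := by
    simp only [map_sub, map_smul, smul_eq_mul, LinearMap.sub_apply, LinearMap.smul_apply, hyx]
    ring
  have h5 : 0 < q (q A y • x - q A x • y) (q A y • x - q A x • y) := by
    rw [h4]
    have e1 : 0 < q A y ^ 2 * q x x := by positivity
    have e2 : 0 ≤ q A x ^ 2 * q y y := by positivity
    have e3 : 2 * (q A x * q A y) * q x y ≤ 0 :=
      mul_nonpos_of_nonneg_of_nonpos (by positivity) hxy
    linarith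
  have h6 : q A y • x - q A x • y ≠ 0 := by
    intro h
    rw [h] at h5
    simp at h5
  have h7 := neg_of_orth hq haa hbb hAA hab haA hbA h1 h2 h3 h6
  linarith

theorem adjacent [Module.Finite ℚ V] {q : V →ₗ[ℚ] V →ₗ[ℚ] ℚ} (hq : Signature3 q)
    {L : AddSubgroup V} (hint : ∀ x ∈ L, ∀ y ∈ L, ∃ m : ℤ, q x y = m)
    {S : Set V} (hS : ∀ s ∈ S, s ∈ L) (hbd : ∃ K : ℚ, ∀ s ∈ S, -K ≤ q s s)
    {α a b : V} (hα : α ≠ 0) (hαL : α ∈ L) (hαα : q α α = 0)
    (hαa : q α a = 0) (hαb : q α b = 0) (hab : q a b = 0) (haa : 0 < q a a) (hbb : 0 < q b b) :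
    ∃ A : V, q a A = 0 ∧ q b A = 0 ∧ 0 < q A A ∧ 0 < q A α ∧
      ∀ s ∈ S, q a s = 0 → q b s = 0 → 0 < q α s → 0 < q A s := by
  obtain ⟨y0, hy0⟩ := exists_pos_of_isotropic hq hα hαα
  obtain ⟨K, hK⟩ := hbd
  have hba : q b a = 0 := by rw [hq.symm]; exact hab
  have haα : q a α = 0 := by rw [hq.symm]; exact hαa
  have hbα : q b α = 0 := by rw [hq.symm]; exact hαb
  have hane : q a a ≠ 0 := haa.ne'
  have hbne : q b b ≠ 0 := hbb.ne'
  obtain ⟨y, hay, hby, hαy⟩ : ∃ y, q a y = 0 ∧ q b y = 0 ∧ q α y = q α y0 := by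
    refine ⟨y0 - (q a y0 / q a a) • a - (q b y0 / q b b) • b, ?_, ?_, ?_⟩
    · simp only [map_sub, map_smul, smul_eq_mul, hab, mul_zero, sub_zero]
      field_simp
      ring
    · simp only [map_sub, map_smul, smul_eq_mul, hba, mul_zero, sub_zero]
      field_simp
      ring
    · simp only [map_sub, map_smul, smul_eq_mul, hαa, hαb, mul_zero, sub_zero]
  set c := q α y0 with hc
  have hyα : q y α = c := by rw [hq.symm]; exact hαy
  have hK0 : 0 ≤ max K 0 := le_max_right _ _
  obtain ⟨t, ht⟩ : ∃ t : ℚ, 2 * t * c + q y y = max K 0 * c ^ 2 + 1 :=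
    ⟨(max K 0 * c ^ 2 + 1 - q y y) / (2 * c), by field_simp; ring⟩
  have haA : q a (t • α + y) = 0 := by simp [haα, hay]
  have hbA : q b (t • α + y) = 0 := by simp [hbα, hby]
  have hAα : q (t • α + y) α = c := by simp [hαα, hyα]
  have hαA : q α (t • α + y) = c := by rw [hq.symm]; exact hAα
  have hAA : q (t • α + y) (t • α + y) = max K 0 * c ^ 2 + 1 := by
    rw [← ht]
    simp only [map_add, map_smul, smul_eq_mul, LinearMap.add_apply, LinearMap.smul_apply, hαα,
      hαy, hyα]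
    ring
  generalize t • α + y = A at haA hbA hAα hαA hAA ⊢
  have hApos : 0 < q A A := by rw [hAA]; positivity
  refine ⟨A, haA, hbA, hApos, by rw [hAα]; exact hy0, ?_⟩
  intro s hs has hbs hαs
  by_contra hcon
  have hAs : q A s ≤ 0 := not_lt.1 hcon
  have h1 : 1 ≤ q α s := by
    obtain ⟨m, hm⟩ := hint α hαL s (hS s hs)
    rw [hm] at hαs ⊢
    have : (0 : ℤ) < m := by exact_mod_cast hαs
    exact_mod_cast this
  have hsα : q s α = q α s := hq.symm s α
  have hcne : c ≠ 0 := hy0.ne'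
  obtain ⟨l, hl0, hl⟩ : ∃ l : ℚ, 0 ≤ l ∧ q A s + l * c = 0 :=
    ⟨-q A s / c, div_nonneg (by linarith) hy0.le, by field_simp; ring⟩
  have hAx : q A (s + l • α) = 0 := by
    simp only [map_add, map_smul, smul_eq_mul, hAα]; exact hl
  have hαx : q α (s + l • α) = q α s := by simp [hαα]
  have hxx : q (s + l • α) (s + l • α) = q s s + 2 * l * q α s := by
    simp only [map_add, map_smul, smul_eq_mul, LinearMap.add_apply, LinearMap.smul_apply, hαα,
      hsα]
    ring
  have hax : q a (s + l • α) = 0 := by simp [has, haα]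
  have hbx : q b (s + l • α) = 0 := by simp [hbs, hbα]
  generalize s + l • α = x at hAx hαx hxx hax hbx
  have hxα : q x α = q α s := by rw [hq.symm]; exact hαx
  have hxA : q x A = 0 := by rw [hq.symm]; exact hAx
  obtain ⟨d, hd⟩ : ∃ d : ℚ, d * q A A = c := ⟨c / q A A, by field_simp⟩
  have hAα' : q A (α - d • A) = 0 := by
    simp only [map_sub, map_smul, smul_eq_mul, hAα, hd, sub_self]
  have haα' : q a (α - d • A) = 0 := by simp [haα, haA]
  have hbα' : q b (α - d • A) = 0 := by simp [hbα, hbA]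
  have hxα' : q x (α - d • A) = q α s := by
    simp [hxα, hxA]
  have hα'α' : q (α - d • A) (α - d • A) = -(d * c) := by
    simp only [map_sub, map_smul, smul_eq_mul, LinearMap.sub_apply, LinearMap.smul_apply, hαα,
      hAα, hαA]
    linear_combination d * hd
  generalize α - d • A = α' at hAα' haα' hbα' hxα' hα'α'
  have hneg : ∀ t : ℚ, q (x + t • α') (x + t • α') ≤ 0 := by
    intro t
    by_cases h0 : x + t • α' = 0
    · rw [h0]; simp
    · exact (neg_of_orth hq haa hbb hApos hab haA hbA (by simp [hax, haα']) (by simp [hbx, hbα'])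
        (by simp [hAx, hAα']) h0).le
  have hc := cauchy hq.symm hneg
  rw [hxα', hα'α'] at hc
  have hxxK : -max K 0 ≤ q x x := by
    rw [hxx]
    have e1 := hK s hs
    have e2 : K ≤ max K 0 := le_max_left _ _
    have e3 : 0 ≤ 2 * l * q α s := by positivity
    linarith
  have hdpos : 0 < d := by
    rcases lt_or_ge 0 d with h | h
    · exact h
    · exfalso
      have : d * q A A ≤ 0 := mul_nonpos_of_nonpos_of_nonneg h hApos.le
      linarith
  have hdc : 0 < d * c := mul_pos hdpos hy0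
  -- `q x x * (-(d c)) ≤ K' d c < 1`
  have h2 : q x x * -(d * c) ≤ max K 0 * (d * c) := by
    have := mul_le_mul_of_nonneg_right hxxK hdc.le
    linarith
  have h3 : max K 0 * (d * c) < 1 := by
    have e1 : d * (max K 0 * c ^ 2 + 1) = c := by rw [← hAA]; exact hd
    have e2 : (max K 0 * (d * c)) * c = c - d := by linear_combination e1
    have e3 : (max K 0 * (d * c)) * c < 1 * c := by linarith
    exact lt_of_mul_lt_mul_right e3 hy0.le
  have h4 : 1 ≤ q α s ^ 2 := one_le_pow₀ h1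
  linarith

end Pool.Agent.SYZC
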