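import Pool.Agent.SYZC.Sig

/-!
# SYZC/Lift : vectors orthogonal to `α` and the plane, independent modulo `α`

PROOF. Let `U = {x | q(a,x) = q(b,x) = q(α,x) = 0}`, the kernel of a linear map `V → ℚ^3`, so
`finrank U ≥ finrank V - 3 ≥ r + 1` (from `r + 4 ≤ finrank V`). `α ∈ U`. The quotient of `U` by the span of `α`
has dimension `≥ r`; take `r` linearly independent elements of it (`exists_linearIndependent_...` or a basis
restricted to `Fin r`), lift them to `U`, multiply by positive integers so that they lie in `L`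
(`exists_nsmul_mem`; they stay independent modulo `α`): `w₁, …, w_r`. Then `∑ v_k w_k = c α` implies `v = 0`.
-/

set_option autoImplicit false

open Module

namespace Pool.Agent.SYZC

variable {V : Type*} [AddCommGroup V] [Module ℚ V]

theorem exists_lift [Module.Finite ℚ V] {q : V →ₗ[ℚ] V →ₗ[ℚ] ℚ}
    {L : AddSubgroup V} (hL : Submodule.span ℚ (L : Set V) = ⊤) {α a b : V} (hα : α ≠ 0)
    (hαα : q α α = 0) (haα : q a α = 0) (hbα : q b α = 0) {r : ℕ} (hr : r + 4 ≤ finrank ℚ V) :
    ∃ w : Fin r → V, (∀ k, w k ∈ L ∧ q a (w k) = 0 ∧ q b (w k) = 0 ∧ q α (w k) = 0) ∧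
      ∀ (v : Fin r → ℤ) (c : ℚ), ∑ k, (v k : ℚ) • w k = c • α → v = 0 := by
  classical
  let F : V →ₗ[ℚ] (Fin 3 → ℚ) := LinearMap.pi ![q a, q b, q α]
  have hF : ∀ x, x ∈ LinearMap.ker F ↔ q a x = 0 ∧ q b x = 0 ∧ q α x = 0 := by
    intro x
    rw [LinearMap.mem_ker]
    constructor
    · intro h
      exact ⟨congrFun h 0, congrFun h 1, congrFun h 2⟩
    · rintro ⟨h1, h2, h3⟩
      funext i
      fin_cases i
      · exact h1
      · exact h2
      · exact h3
  have hαU : α ∈ LinearMap.ker F := (hF α).2 ⟨haα, hbα, hαα⟩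
  let U := LinearMap.ker F
  have hU : r + 1 ≤ finrank ℚ U := by
    have h1 := LinearMap.finrank_range_add_finrank_ker F
    have h2 : finrank ℚ (LinearMap.range F) ≤ 3 := by
      have := Submodule.finrank_le (LinearMap.range F)
      rwa [Module.finrank_fin_fun] at this
    have h3 : finrank ℚ U = finrank ℚ (LinearMap.ker F) := rfl
    omega
  let α' : U := ⟨α, hαU⟩
  let S : Submodule ℚ U := Submodule.span ℚ {α'}
  have hS : finrank ℚ S ≤ 1 := by
    have := finrank_span_le_card (R := ℚ) ({α'} : Set U)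
    simpa using this
  have hQ : r ≤ finrank ℚ (U ⧸ S) := by
    have := Submodule.finrank_quotient_add_finrank S
    omega
  obtain ⟨f, hf⟩ := exists_linearIndependent_of_le_finrank hQ
  have hsurj := Submodule.mkQ_surjective S
  choose g hg using fun k => hsurj (f k)
  choose n hn1 hn2 using fun k => exists_nsmul_mem hL ((g k : U) : V)
  refine ⟨fun k => (n k : ℚ) • ((g k : U) : V), ?_, ?_⟩
  · intro k
    obtain ⟨h1, h2, h3⟩ := (hF _).1 (g k).2
    refine ⟨hn2 k, ?_, ?_, ?_⟩
    · simp [h1]
    · simp [h2]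
    · simp [h3]
  · intro v c hv
    have h1 : (∑ k, ((v k : ℚ) * (n k : ℚ)) • g k : U) = c • α' := by
      apply Subtype.ext
      rw [Submodule.coe_smul, AddSubmonoidClass.coe_finsetSum]
      rw [← hv]
      apply Finset.sum_congr rfl
      intro k _
      rw [Submodule.coe_smul, smul_smul]
    have h2 : ∑ k, ((v k : ℚ) * (n k : ℚ)) • f k = 0 := by
      have h3 := congrArg S.mkQ h1
      rw [map_sum, map_smul] at h3
      have h4 : S.mkQ α' = 0 := by
        rw [Submodule.mkQ_apply, Submodule.Quotient.mk_eq_zero]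
        exact Submodule.mem_span_singleton_self α'
      rw [h4, smul_zero] at h3
      rw [← h3]
      apply Finset.sum_congr rfl
      intro k _
      rw [map_smul, hg]
    rw [Fintype.linearIndependent_iff] at hf
    have h5 := hf _ h2
    funext k
    have h6 := h5 k
    have h7 : (n k : ℚ) ≠ 0 := by
      have := hn1 k
      positivity
    have h8 : (v k : ℚ) = 0 := by
      rcases mul_eq_zero.1 h6 with h | h
      · exact h
      · exact absurd h h7
    exact_mod_cast h8

end Pool.Agent.SYZC
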