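import Pool.Agent.SYZC.Sig

/-!
# SYZC/Plane : a positive plane orthogonal to `α` and to no wall orthogonal to `α`

PROOF of `step`. Put `M = q(z,a)² - q(z,z) q(a,a)`, and choose `k ≥ 1` with
`q(k a + z, k a + z) = k² q(a,a) + 2 k q(a,z) + q(z,z) > max (K M) 0` (a quadratic polynomial in `k` with
positive leading coefficient, e.g. `k ≥ 1 + (2 |q(a,z)| + |q(z,z)| + |K M|) / q(a,a)`). Let `a' = k a + z`; then
`q(a',α) = q(a',b) = 0`, `q(a',a') > 0`. Let `s` be as in the statement, suppose `q(s,a) ≠ 0`. Let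
`u = q(a',a') a - q(a',a) a'`; `q(α,u) = q(b,u) = q(a',u) = 0`. For all `t`, `x = s + t u` is orthogonal to
`α, a', b`. Then `q(x,x) ≤ 0`: otherwise `neg_of_orth` with `p = (b, a', x)` and the vector `α` gives
`q(α,α) < 0`. So `cauchy`: `q(s,u)² ≤ q(s,s) q(u,u)`, where `q(s,u) = q(a',a') q(s,a)` and
`q(u,u) = q(a',a') (q(a',a') q(a,a) - q(a',a)²) = - q(a',a') M`. Hence
`q(a',a') q(s,a)² ≤ - q(s,s) M`. By integrality `q(s,a)² ≥ 1`, so `M > 0` or `q(a',a') ≤ 0`, ..., and
`q(a',a') ≤ K M`, a contradiction.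
(`0 ≤ M` holds: if `M < 0` the right side `- q(s,s) M` would be `≤ 0` as `q(s,s) ≤ 0` (`t = 0`), while the left
side is positive. So `- q(s,s) M ≤ K M`.)

PROOF of `plane`. `L ∩ α^⊥` is a finitely generated group (`ℤ` is noetherian); let `z₁, …, z_m` be generators.
Start with `a₀, b` of `exists_plane`. By induction on a list `l` of elements of `L ∩ α^⊥`: there is `a ∈ L` with
`q(α,a) = 0`, `q(a,b) = 0`, `q(a,a) > 0` such that all `s ∈ L` with `q(α,s) = q(a,s) = q(b,s) = 0`, `-K ≤ q(s,s)`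
satisfy `q(s,z) = 0` for all `z` in `l`. Induction step for `z`: apply `step` to `a, b` and
`z' = q(b,b) z - q(z,b) b ∈ L` (the coefficients are integers); for the new `a' = k a + z'` a
wall `s` orthogonal to `a', b, α` is orthogonal to `a` by `step`, so to the old list, and to
`z' = a' - k a`, so `q(b,b) q(s,z) = q(s,z') = 0`.
At the end, a vector `s ∈ S` with `q(α,s) = q(a,s) = q(b,s) = 0` lies in `L ∩ α^⊥` and is
orthogonal to all generators of `L ∩ α^⊥`, hence `q(s,s) = 0`, in contradiction to `q(s,s) < 0`.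
-/

set_option autoImplicit false

open Module

namespace Pool.Agent.SYZC

variable {V : Type*} [AddCommGroup V] [Module ℚ V]

theorem step [Module.Finite ℚ V] {q : V →ₗ[ℚ] V →ₗ[ℚ] ℚ} (hq : Signature3 q)
    {L : AddSubgroup V} (hint : ∀ x ∈ L, ∀ y ∈ L, ∃ m : ℤ, q x y = m) (K : ℚ)
    {α a b z : V} (hα : α ≠ 0) (hαα : q α α = 0) (haL : a ∈ L)
    (hαa : q α a = 0) (hαb : q α b = 0) (hab : q a b = 0) (haa : 0 < q a a) (hbb : 0 < q b b)
    (hαz : q α z = 0) (hbz : q b z = 0) :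
    ∃ k : ℕ, 0 < q ((k : ℚ) • a + z) ((k : ℚ) • a + z) ∧ ∀ s ∈ L, q α s = 0 → q b s = 0 →
      q ((k : ℚ) • a + z) s = 0 → -K ≤ q s s → q a s = 0 := by
  obtain ⟨M, hM⟩ : ∃ M, M = q z a ^ 2 - q z z * q a a := ⟨_, rfl⟩
  have haz : q z a = q a z := hq.symm z a
  have hba : q b a = 0 := by rw [hq.symm]; exact hab
  obtain ⟨k, hk⟩ := exists_nat_ge (1 + (2 * |q a z| + |q z z| + |K * M|) / q a a)
  have hQ : q ((k : ℚ) • a + z) ((k : ℚ) • a + z) =
      k ^ 2 * q a a + 2 * k * q a z + q z z := by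
    simp only [map_add, map_smul, LinearMap.add_apply, LinearMap.smul_apply, smul_eq_mul, haz]
    ring
  have h1 : (1 : ℚ) ≤ k := by
    have : 0 ≤ (2 * |q a z| + |q z z| + |K * M|) / q a a := by positivity
    linarith
  have h2 : q a a + (2 * |q a z| + |q z z| + |K * M|) ≤ k * q a a := by
    have h3 := mul_le_mul_of_nonneg_right hk haa.le
    rw [add_mul, div_mul_cancel₀ _ haa.ne', one_mul] at h3
    exact h3
  have hP : |K * M| < q ((k : ℚ) • a + z) ((k : ℚ) • a + z) := by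
    rw [hQ]
    have h3 : -|q a z| ≤ q a z := neg_abs_le _
    have h4 : -|q z z| ≤ q z z := neg_abs_le _
    have h5 : 0 ≤ |q z z| := abs_nonneg _
    have h6 : 0 ≤ |K * M| := abs_nonneg _
    have h7 : (k : ℚ) * (q a a + (2 * |q a z| + |q z z| + |K * M|)) ≤ k * (k * q a a) :=
      mul_le_mul_of_nonneg_left h2 (by linarith)
    have h8 : (k : ℚ) * -|q a z| ≤ k * q a z := mul_le_mul_of_nonneg_left h3 (by linarith)
    have h9 : |q z z| ≤ k * |q z z| := le_mul_of_one_le_left h5 h1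
    have h10 : |K * M| ≤ k * |K * M| := le_mul_of_one_le_left h6 h1
    have h11 : q a a ≤ k * q a a := le_mul_of_one_le_left haa.le h1
    nlinarith
  refine ⟨k, lt_of_le_of_lt (abs_nonneg _) hP, fun s hs hαs hbs h's hK => ?_⟩
  by_contra hne
  obtain ⟨a', ha'⟩ : ∃ a', a' = (k : ℚ) • a + z := ⟨_, rfl⟩
  obtain ⟨P, hPd⟩ : ∃ P, P = q a' a' := ⟨_, rfl⟩
  rw [← ha'] at hP h's hQ
  rw [← hPd] at hP hQ
  have hP0 : 0 < P := lt_of_le_of_lt (abs_nonneg _) hP
  have hαa' : q α a' = 0 := by rw [ha', map_add, map_smul, hαa, hαz]; simp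
  have hba' : q b a' = 0 := by rw [ha', map_add, map_smul, hba, hbz]; simp
  have ha'a : q a' a = k * q a a + q a z := by
    rw [ha']
    simp only [map_add, map_smul, LinearMap.add_apply, LinearMap.smul_apply, smul_eq_mul, haz]
  obtain ⟨u, hu⟩ : ∃ u, u = P • a - q a' a • a' := ⟨_, rfl⟩
  have hαu : q α u = 0 := by
    rw [hu, map_sub, map_smul, map_smul, hαa, hαa']; simp
  have hbu : q b u = 0 := by
    rw [hu, map_sub, map_smul, map_smul, hba, hba']; simp
  have ha'u : q a' u = 0 := by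
    rw [hu, map_sub, map_smul, map_smul, ← hPd]
    simp only [smul_eq_mul]; ring
  have hle : ∀ t : ℚ, q (s + t • u) (s + t • u) ≤ 0 := by
    intro t
    by_contra hx
    push Not at hx
    have e1 : q α (s + t • u) = 0 := by rw [map_add, map_smul, hαs, hαu]; simp
    have e2 : q b (s + t • u) = 0 := by rw [map_add, map_smul, hbs, hbu]; simp
    have e3 : q a' (s + t • u) = 0 := by rw [map_add, map_smul, h's, ha'u]; simp
    have := neg_of_orth hq hbb (hPd ▸ hP0 : 0 < q a' a') hx hba' e2 e3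
      (by rw [hq.symm]; exact hαb) (by rw [hq.symm]; exact hαa') (by rw [hq.symm]; exact e1) hα
    linarith
  have hc := cauchy hq.symm hle
  have hss : q s s ≤ 0 := by simpa using hle 0
  have hsa' : q s a' = 0 := by rw [hq.symm]; exact h's
  have hsu : q s u = P * q s a := by
    rw [hu, map_sub, map_smul, map_smul, hsa']; simp
  have huu : q u u = -(P * M) := by
    have e1 : q u u = P * q a u := by
      have e0 : q (P • a - q a' a • a') u = P * q a u := by
        rw [map_sub, map_smul, map_smul, LinearMap.sub_apply, LinearMap.smul_apply,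
          LinearMap.smul_apply, ha'u]
        simp
      rwa [← hu] at e0
    have e2 : q a u = P * q a a - q a' a * q a' a := by
      rw [hu, map_sub, map_smul, map_smul, hq.symm a a']; simp
    rw [e1, e2, ha'a, hQ, hM, haz]
    ring
  rw [hsu, huu] at hc
  have hc' : P * q s a ^ 2 ≤ -q s s * M := by
    have : P * (P * q s a ^ 2) ≤ P * (-q s s * M) := by nlinarith
    exact le_of_mul_le_mul_left this hP0
  obtain ⟨m, hm⟩ := hint s hs a haL
  have hm0 : m ≠ 0 := by
    rintro rfl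
    apply hne
    rw [hq.symm, hm]; simp
  have hm1 : (1 : ℚ) ≤ q s a ^ 2 := by
    rw [hm]
    have : (1 : ℤ) ≤ m ^ 2 := by
      have := sq_nonneg (m)
      have h3 : 0 < m ^ 2 := by positivity
      omega
    exact_mod_cast this
  have hPle : P ≤ -q s s * M := by nlinarith
  have hKM : K * M ≤ |K * M| := le_abs_self _
  rcases le_or_gt 0 M with h0 | h0
  · have : -q s s * M ≤ K * M := mul_le_mul_of_nonneg_right (by linarith) h0
    linarith
  · have : -q s s * M ≤ 0 := mul_nonpos_of_nonneg_of_nonpos (by linarith) h0.le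
    linarith

private theorem plane_list [Module.Finite ℚ V] {q : V →ₗ[ℚ] V →ₗ[ℚ] ℚ} (hq : Signature3 q)
    {L : AddSubgroup V} (hint : ∀ x ∈ L, ∀ y ∈ L, ∃ m : ℤ, q x y = m) (K : ℚ)
    {α b : V} (hα : α ≠ 0) (hαα : q α α = 0) (hbL : b ∈ L) (hαb : q α b = 0) (hbb : 0 < q b b)
    {a₀ : V} (ha₀ : a₀ ∈ L) (h1 : q α a₀ = 0) (h2 : q a₀ b = 0) (h3 : 0 < q a₀ a₀) (l : List V) :
    (∀ z ∈ l, z ∈ L ∧ q α z = 0) → ∃ a ∈ L, q α a = 0 ∧ q a b = 0 ∧ 0 < q a a ∧
      ∀ s ∈ L, q α s = 0 → q a s = 0 → q b s = 0 → -K ≤ q s s → ∀ z ∈ l, q s z = 0 := by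
  induction l with
  | nil => exact fun _ => ⟨a₀, ha₀, h1, h2, h3, fun _ _ _ _ _ _ z hz => by simp at hz⟩
  | cons z l ih =>
    intro hl
    obtain ⟨a, haL, hαa, hab, haa, ha⟩ := ih fun y hy => hl y (List.mem_cons_of_mem _ hy)
    obtain ⟨hzL, hαz⟩ := hl z List.mem_cons_self
    obtain ⟨m₁, hm₁⟩ := hint b hbL b hbL
    obtain ⟨m₂, hm₂⟩ := hint z hzL b hbL
    obtain ⟨z', hz'⟩ : ∃ z', z' = q b b • z - q z b • b := ⟨_, rfl⟩
    have hz'L : z' ∈ L := by
      rw [hz', hm₁, hm₂, Int.cast_smul_eq_zsmul, Int.cast_smul_eq_zsmul]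
      exact L.sub_mem (L.zsmul_mem hzL _) (L.zsmul_mem hbL _)
    have hαz' : q α z' = 0 := by
      rw [hz', map_sub, map_smul, map_smul, hαz, hαb]; simp
    have hbz' : q b z' = 0 := by
      rw [hz', map_sub, map_smul, map_smul, hq.symm z b]
      simp only [smul_eq_mul]; ring
    obtain ⟨k, hk0, hk⟩ := step hq hint K hα hαα haL hαa hαb hab haa hbb hαz' hbz'
    refine ⟨(k : ℚ) • a + z', ?_, ?_, ?_, hk0, ?_⟩
    · rw [Nat.cast_smul_eq_nsmul]
      exact L.add_mem (L.nsmul_mem haL _) hz'L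
    · rw [map_add, map_smul, hαa, hαz']; simp
    · rw [map_add, map_smul, LinearMap.add_apply, LinearMap.smul_apply, hab, hq.symm z' b, hbz']
      simp
    · intro s hs hαs has hbs hKs
      have has0 := hk s hs hαs hbs has hKs
      have hsz' : q s z' = 0 := by
        rw [hq.symm]
        rw [map_add, map_smul, LinearMap.add_apply, LinearMap.smul_apply, has0] at has
        simpa using has
      intro y hy
      rcases List.mem_cons.1 hy with rfl | hy
      · rw [hz', map_sub, map_smul, map_smul, hq.symm s b, hbs] at hsz'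
        simp only [smul_eq_mul, mul_zero, sub_zero] at hsz'
        exact (mul_eq_zero.1 hsz').resolve_left hbb.ne'
      · exact ha s hs hαs has0 hbs hKs y hy

theorem plane [Module.Finite ℚ V] {q : V →ₗ[ℚ] V →ₗ[ℚ] ℚ} (hq : Signature3 q)
    {L : AddSubgroup V} (hfg : L.FG) (hL : Submodule.span ℚ (L : Set V) = ⊤)
    (hint : ∀ x ∈ L, ∀ y ∈ L, ∃ m : ℤ, q x y = m)
    {S : Set V} (hS : ∀ s ∈ S, s ∈ L) (hneg : ∀ s ∈ S, q s s < 0)
    (hbd : ∃ K : ℚ, ∀ s ∈ S, -K ≤ q s s) {α : V} (hα : α ≠ 0) (hαα : q α α = 0) :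
    ∃ a b : V, q α a = 0 ∧ q α b = 0 ∧ q a b = 0 ∧ 0 < q a a ∧ 0 < q b b ∧
      ∀ s ∈ S, q a s = 0 → q b s = 0 → q α s ≠ 0 := by
  obtain ⟨K, hK⟩ := hbd
  obtain ⟨a₀, ha₀, b, hb, h1, h2, h3, h4, h5⟩ := exists_plane hq hL α
  have hfg' : (AddSubgroup.toIntSubmodule L).FG := by
    rw [Submodule.fg_iff_addSubgroup_fg]
    exact hfg
  have hN := isNoetherian_submodule.1 (isNoetherian_of_fg_of_noetherian _ hfg')
  let N : Submodule ℤ V :=
    { carrier := {x | x ∈ L ∧ q α x = 0}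
      add_mem' := by
        rintro x y ⟨hx, hx'⟩ ⟨hy, hy'⟩
        exact ⟨L.add_mem hx hy, by rw [map_add, hx', hy', add_zero]⟩
      zero_mem' := ⟨L.zero_mem, by simp⟩
      smul_mem' := by
        rintro c x ⟨hx, hx'⟩
        exact ⟨L.zsmul_mem hx _, by rw [map_zsmul, hx', smul_zero]⟩ }
  obtain ⟨T, hT⟩ := hN N (fun x hx => hx.1)
  obtain ⟨a, haL, hαa, hab, haa, ha⟩ := plane_list hq hint K hα hαα hb h2 h5 ha₀ h1 h3 h4
    T.toList (fun z hz => by
      have : z ∈ N := by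
        rw [← hT]
        exact Submodule.subset_span (Finset.mem_toList.1 hz)
      exact this)
  refine ⟨a, b, hαa, h2, hab, haa, h5, fun s hs has hbs hαs => ?_⟩
  have hsL := hS s hs
  have h6 := ha s hsL hαs has hbs (hK s hs)
  have h7 : ∀ x ∈ N, q s x = 0 := by
    intro x hx
    rw [← hT] at hx
    induction hx using Submodule.span_induction with
    | mem x hx => exact h6 x (Finset.mem_toList.2 hx)
    | zero => simp
    | add x y _ _ hx hy => rw [map_add, hx, hy, add_zero]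
    | smul c x _ hx => rw [map_zsmul, hx, smul_zero]
  have h8 := h7 s ⟨hsL, hαs⟩
  have h9 := hneg s hs
  linarith

end Pool.Agent.SYZC
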