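import Pool.Agent.SYZC.Defs

/-!
# SYZC/Trans : Eichler transvections

PROOFS. All identities are computations with `q(α,α) = q(α,w) = 0`, symmetry and bilinearity.
`transEquiv` is the linear equivalence with inverse `T_(α, -w)` (`T_(α,u) ∘ T_(α,w) = T_(α,u+w)` for `u, w` orthogonal
to `α`). `trans_mem`: if `w = 2 w'`, `w' ∈ L`, `α ∈ L` then for `x ∈ L` the numbers `q(α,x)`, `q(w,x)`,
`q(w,w)/2 = 2 q(w',w')` are integers, so `T x ∈ L`; the same for the inverse (`-w = 2 (-w')`), so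
`T x ∈ L ↔ x ∈ L`. `exists_mon`: `N = (Mon.relIndex isoms)!`, or the number of
`Subgroup.pow_mem_of_relIndex_ne_zero_of_dvd`; `T_(α,w)^N = T_(α, N w)`.
-/

set_option autoImplicit false

open Module

namespace Pool.Agent.SYZC

open Pool.Agent.SYZ71

variable {V : Type*} [AddCommGroup V] [Module ℚ V]

/-- The Eichler transvection. -/
noncomputable def trans (q : V →ₗ[ℚ] V →ₗ[ℚ] ℚ) (α w x : V) : V :=
  x + q α x • w - (q w x + q w w / 2 * q α x) • α

theorem trans_isometry {q : V →ₗ[ℚ] V →ₗ[ℚ] ℚ} (hs : ∀ x y, q x y = q y x) {α w : V}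
    (hα : q α α = 0) (hw : q α w = 0) (x y : V) : q (trans q α w x) (trans q α w y) = q x y := by
  have hw' : q w α = 0 := by rw [hs, hw]
  simp only [trans, map_add, map_sub, map_smul, LinearMap.add_apply, LinearMap.sub_apply,
    LinearMap.smul_apply, smul_eq_mul, hα, hw, hw']
  rw [hs x w, hs x α]
  ring

theorem trans_add {q : V →ₗ[ℚ] V →ₗ[ℚ] ℚ} (hs : ∀ x y, q x y = q y x) {α u w : V}
    (hα : q α α = 0) (hu : q α u = 0) (hw : q α w = 0) (x : V) :
    trans q α u (trans q α w x) = trans q α (u + w) x := by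
  have hw' : q w α = 0 := by rw [hs, hw]
  have hu' : q u α = 0 := by rw [hs, hu]
  simp only [trans, map_add, map_sub, map_smul, LinearMap.add_apply, LinearMap.sub_apply,
    LinearMap.smul_apply, smul_eq_mul, hα, hw, hw', hu, hu']
  rw [hs w u]
  module

theorem trans_zero {q : V →ₗ[ℚ] V →ₗ[ℚ] ℚ} (α x : V) : trans q α 0 x = x := by
  simp [trans]

/-- The transvection fixes `α`. -/
theorem trans_self {q : V →ₗ[ℚ] V →ₗ[ℚ] ℚ} (hs : ∀ x y, q x y = q y x) {α w : V}
    (hα : q α α = 0) (hw : q α w = 0) : trans q α w α = α := by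
  have hw' : q w α = 0 := by rw [hs, hw]
  simp [trans, hα, hw']

/-- `q(a, T x) = q(a, x)` for `a` orthogonal to `α` and `w`. -/
theorem trans_orth {q : V →ₗ[ℚ] V →ₗ[ℚ] ℚ} {α w a : V}
    (haα : q a α = 0) (haw : q a w = 0) (x : V) : q a (trans q α w x) = q a x := by
  simp [trans, haα, haw]

/-- `q(x, T y) = q(T' x, y)` with `T' = T_(α, -w)`. -/
theorem trans_adjoint {q : V →ₗ[ℚ] V →ₗ[ℚ] ℚ} (hs : ∀ x y, q x y = q y x) {α w : V}
    (hα : q α α = 0) (hw : q α w = 0) (x y : V) :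
    q x (trans q α w y) = q (trans q α (-w) x) y := by
  have hw' : q w α = 0 := by rw [hs, hw]
  simp only [trans, map_add, map_sub, map_smul, LinearMap.add_apply, LinearMap.sub_apply,
    LinearMap.smul_apply, smul_eq_mul, hα, hw, hw', map_neg, LinearMap.neg_apply]
  rw [hs x w, hs x α]
  ring

/-- the transvection as a linear equivalence -/
noncomputable def transEquiv {q : V →ₗ[ℚ] V →ₗ[ℚ] ℚ} (hs : ∀ x y, q x y = q y x) {α w : V}
    (hα : q α α = 0) (hw : q α w = 0) : V ≃ₗ[ℚ] V where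
  toFun := trans q α w
  map_add' := by
    intro x y
    simp only [trans, map_add]
    module
  map_smul' := by
    intro c x
    simp only [trans, map_smul, smul_eq_mul, RingHom.id_apply]
    module
  invFun := trans q α (-w)
  left_inv := by
    intro x
    rw [trans_add hs hα (by rw [map_neg, hw, neg_zero]) hw, neg_add_cancel, trans_zero]
  right_inv := by
    intro x
    rw [trans_add hs hα hw (by rw [map_neg, hw, neg_zero]), add_neg_cancel, trans_zero]

theorem trans_mem {q : V →ₗ[ℚ] V →ₗ[ℚ] ℚ} {L : AddSubgroup V}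
    (hint : ∀ x ∈ L, ∀ y ∈ L, ∃ m : ℤ, q x y = m) {α w : V} (hα : α ∈ L) (hw : w ∈ L) {x : V}
    (hx : x ∈ L) : trans q α ((2 : ℚ) • w) x ∈ L := by
  obtain ⟨a, ha⟩ := hint α hα x hx
  obtain ⟨b, hb⟩ := hint w hw x hx
  obtain ⟨c, hc⟩ := hint w hw w hw
  have h1 : trans q α ((2 : ℚ) • w) x = x + (2 * a : ℤ) • w - (2 * b + 2 * c * a : ℤ) • α := by
    simp only [trans, map_smul, LinearMap.smul_apply, smul_eq_mul, ha, hb, hc]
    rw [← Int.cast_smul_eq_zsmul ℚ, ← Int.cast_smul_eq_zsmul ℚ]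
    push_cast
    module
  rw [h1]
  exact L.sub_mem (L.add_mem hx (L.zsmul_mem hw _)) (L.zsmul_mem hα _)

theorem exists_mon {n : ℕ} (C : SymplecticClass n) (hC : C.Axioms) {α : C.H} (hαL : α ∈ C.L)
    (hα : C.q α α = 0) : ∃ N : ℕ, 1 ≤ N ∧ ∀ w ∈ C.L, C.q α w = 0 →
      ∃ γ ∈ C.Mon, ∀ x, γ x = C.transvection α ((2 * N : ℚ) • w) x := by
  refine ⟨(C.Mon.relIndex C.isoms).factorial, Nat.factorial_pos _, ?_⟩
  intro w hw hαw
  have hw2 : C.q α ((2 : ℚ) • w) = 0 := by rw [map_smul, hαw, smul_zero]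
  set T := transEquiv hC.symm hα hw2 with hT
  have hmem : T ∈ C.isoms := by
    refine ⟨fun x y => trans_isometry hC.symm hα hw2 x y, fun x => ⟨fun h => ?_, fun h => ?_⟩⟩
    · have h1 := trans_mem hC.integral hαL (C.L.neg_mem hw) h
      have h2 : trans C.q α ((2 : ℚ) • (-w)) (T x) = x := by
        change trans C.q α ((2 : ℚ) • (-w)) (trans C.q α ((2 : ℚ) • w) x) = x
        rw [trans_add hC.symm hα (by rw [map_smul, map_neg, hαw, neg_zero, smul_zero]) hw2,
          smul_neg, neg_add_cancel, trans_zero]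
      rwa [h2] at h1
    · exact trans_mem hC.integral hαL hw h
  have hpow : ∀ (m : ℕ) (x : C.H), (T ^ m) x = trans C.q α ((2 * m : ℚ) • w) x := by
    intro m
    induction m with
    | zero => intro x; simp [trans_zero]
    | succ m ih =>
      intro x
      rw [pow_succ', LinearEquiv.mul_apply, ih x]
      change trans C.q α ((2 : ℚ) • w) (trans C.q α ((2 * m : ℚ) • w) x) = _
      rw [trans_add hC.symm hα hw2 (by rw [map_smul, hαw, smul_zero]), ← add_smul]
      congr 2
      push_cast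
      ring
  refine ⟨T ^ (C.Mon.relIndex C.isoms).factorial, ?_, fun x => hpow _ x⟩
  exact (Subgroup.mem_inf.1 (Subgroup.pow_mem_of_relIndex_ne_zero_of_dvd hC.mon_index hmem
    (fun m hm hm2 => Nat.dvd_factorial hm hm2))).1

end Pool.Agent.SYZC
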