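import Pool.Agent.SYZC.Mem
import Pool.Agent.SYZC.Plane
import Pool.Agent.SYZC.Cham
import Pool.Agent.SYZC.Trans
import Pool.Agent.SYZC.Lift

/-!
# SYZC/Main : from one member to all members
-/

set_option autoImplicit false

open Module

namespace Pool.Agent.SYZC

open Pool.Agent.SYZ71

namespace SymplecticClass

variable {n : ℕ} {C : SymplecticClass n}

theorem transvection_eq (α w x : C.H) : C.transvection α w x = trans C.q α w x := rfl

theorem c_transvection (hC : C.Axioms) (i : C.I) (α w x : (C.X i).NS) :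
    C.c i ((C.X i).transvection α w x) = trans C.q (C.c i α) (C.c i w) (C.c i x) := by
  unfold Variety.transvection trans
  rw [map_sub, map_add, map_smul, map_smul, hC.isometry, hC.isometry, hC.isometry]

theorem trans_smul {V : Type*} [AddCommGroup V] [Module ℚ V] {q : V →ₗ[ℚ] V →ₗ[ℚ] ℚ} (α w x : V)
    (t : ℚ) : trans q (t • α) w x = trans q α (t • w) x := by
  unfold trans
  simp only [map_smul, LinearMap.smul_apply, smul_eq_mul, smul_smul]
  congr 2
  · congr 1
    ring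
  · ring

/-- The data found on one member: `β` is a nef isotropic line bundle of class `M α`, with a
group of automorphisms of rank `r`. -/
theorem exists_member (hC : C.Axioms) (hF : C.HasActions) (i : C.I) (α : (C.X i).Div)
    (hα : (C.X i).IsNefIsotropic α) (r : ℕ) (hr : r + 4 ≤ finrank ℚ C.H) :
    ∃ (j : C.I) (β : (C.X j).Div) (M : ℕ) (G : (C.X j).Action r β), 1 ≤ M ∧
      (C.X j).IsNefIsotropic β ∧
      C.c j ((C.X j).classOf β) = (M : ℚ) • C.c i ((C.X i).classOf α) ∧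
      ∀ v (m : ℕ), ∀ f ∈ (C.X j).H0 (m • β), ∀ h ∈ (C.X j).H0 (m • β),
        G.γ v f * h = f * G.γ v h := by
  haveI := finite hC
  have hs := hC.symm
  obtain ⟨a0, ha0⟩ : ∃ a0, a0 = C.c i ((C.X i).classOf α) := ⟨_, rfl⟩
  have h0 : a0 ≠ 0 := by
    rw [ha0]
    intro h
    exact hα.ne_zero (c_injective hC i (h.trans (map_zero _).symm))
  have h00 : C.q a0 a0 = 0 := by
    rw [ha0, q_c hC]
    exact hα.isotropic
  have hL0 : a0 ∈ C.L := by
    rw [ha0]
    exact hC.cartier i α hα.cartier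
  obtain ⟨a, b, hαa, hαb, hab, haa, hbb, hno⟩ :=
    plane (sig hC) hC.fg hC.span hC.integral hC.wall_mem hC.wall_sq hC.wall_bound h0 h00
  obtain ⟨A, haA, hbA, hAA, hAα, hadj⟩ :=
    adjacent (sig hC) hC.integral hC.wall_mem hC.wall_bound h0 hL0 h00 hαa hαb hab haa hbb
  have haα : C.q a a0 = 0 := (hs _ _).trans hαa
  have hbα : C.q b a0 = 0 := (hs _ _).trans hαb
  -- the new Neron-Severi space
  obtain ⟨N, hN⟩ : ∃ N : Submodule ℚ C.H, ∀ x, x ∈ N ↔ C.q a x = 0 ∧ C.q b x = 0 :=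
    ⟨LinearMap.ker (C.q a) ⊓ LinearMap.ker (C.q b), fun x => by
      rw [Submodule.mem_inf, LinearMap.mem_ker, LinearMap.mem_ker]⟩
  have hwall : ∀ s ∈ C.S, s ∈ N → C.q A s ≠ 0 := by
    intro s hsS hsN
    obtain ⟨h1, h2⟩ := (hN s).1 hsN
    have h3 := hno s hsS h1 h2
    rcases lt_or_gt_of_ne h3 with h4 | h4
    · have h5 := hadj (-s) (hC.wall_neg s hsS) (by rw [map_neg, h1, neg_zero])
        (by rw [map_neg, h2, neg_zero]) (by rw [map_neg]; linarith)
      rw [map_neg] at h5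
      linarith
    · exact (hadj s hsS h1 h2 h4).ne'
  obtain ⟨j, hrange, A', hA', hcA⟩ := hC.period N A ((hN A).2 ⟨haA, hbA⟩) hAA
    (fun x hx h1 h2 => neg_of_orth (sig hC) haa hbb hAA hab haA hbA ((hN x).1 hx).1 ((hN x).1 hx).2
      h1 h2) hwall
  have hcN : ∀ x, C.q a (C.c j x) = 0 ∧ C.q b (C.c j x) = 0 := fun x => by
    rw [← hN, ← hrange]
    exact LinearMap.mem_range_self _ _
  have hXj := hC.variety j
  -- the line bundle
  obtain ⟨x0, hx0⟩ : ∃ x0, C.c j x0 = a0 := by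
    have h1 : a0 ∈ N := (hN a0).2 ⟨haα, hbα⟩
    rw [← hrange] at h1
    exact h1
  obtain ⟨m, hm, D, hD⟩ := hC.spanned j x0
  obtain ⟨m', hm', hm'D⟩ := hXj.qFactorial D
  obtain ⟨β, hβ⟩ : ∃ β, β = m' • D := ⟨_, rfl⟩
  obtain ⟨M, hM⟩ : ∃ M, M = m' * m := ⟨_, rfl⟩
  have hM1 : 1 ≤ M := by
    rw [hM]
    exact Nat.mul_pos hm' hm
  have hMQ : (0 : ℚ) < M := by exact_mod_cast hM1
  have hclβ : (C.X j).classOf β = (M : ℚ) • x0 := by
    rw [hβ, Variety.classOf_nsmul, hD, smul_smul, hM]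
    push_cast
    rfl
  have hcβ : C.c j ((C.X j).classOf β) = (M : ℚ) • a0 := by
    rw [hclβ, map_smul, hx0]
  -- facts on ample classes
  have hbase : ∀ x ∈ (C.X j).Ample, 0 < C.q (C.c j x) (C.c j x) ∧ 0 < C.q A (C.c j x) ∧
      ∀ s ∈ C.S, s ∈ N → 0 < C.q A s → 0 < C.q (C.c j x) s := by
    intro x hx
    obtain ⟨h1, h2, h3⟩ := (hC.ample j A' hA' x).1 hx
    refine ⟨?_, ?_, ?_⟩
    · rwa [q_c hC]
    · rw [← hcA, q_c hC]
      exact h2
    · intro s hsS hsN h4
      refine h3 s hsS ?_ ?_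
      · rw [hrange]
        exact hsN
      · rwa [hcA]
  have hαx : ∀ x ∈ (C.X j).Ample, 0 < C.q a0 (C.c j x) := by
    intro x hx
    obtain ⟨h1, h2, -⟩ := hbase x hx
    rw [hs]
    exact light (sig hC) hab haa hbb haA hbA hAA (hcN x).1 (hcN x).2 haα hbα h1 h00.ge h2 hAα
  have hwα : ∀ s ∈ C.S, s ∈ N → ∀ x ∈ (C.X j).Ample, 0 < C.q (C.c j x) s → 0 < C.q a0 s := by
    intro s hsS hsN x hx h1
    obtain ⟨h2, h3⟩ := (hN s).1 hsN
    rcases lt_or_gt_of_ne (hno s hsS h2 h3) with h4 | h4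
    · exfalso
      have h5 := hadj (-s) (hC.wall_neg s hsS) (by rw [map_neg, h2, neg_zero])
        (by rw [map_neg, h3, neg_zero]) (by rw [map_neg]; linarith)
      have h6 := (hbase x hx).2.2 (-s) (hC.wall_neg s hsS) (N.neg_mem hsN) h5
      rw [map_neg] at h6
      linarith
    · exact h4
  have hnef : (C.X j).IsNefIsotropic β := by
    refine ⟨by rw [hβ]; exact hm'D, ?_, ?_, ?_⟩
    · intro h
      have h1 : (M : ℚ) • a0 = 0 := by rw [← hcβ, h, map_zero]
      exact h0 ((smul_eq_zero.1 h1).resolve_left hMQ.ne')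
    · rw [← q_c hC, hcβ]
      simp [h00]
    · intro x hx t ht
      rw [hC.ample j x hx]
      have h1 : C.c j (x + t • (C.X j).classOf β) = C.c j x + (t * M) • a0 := by
        rw [map_add, map_smul, hcβ, smul_smul]
      have h2 := hαx x hx
      have h3 := (hbase x hx).1
      have h4 : 0 ≤ t * (M : ℚ) := mul_nonneg ht hMQ.le
      have h5 : C.q (C.c j x) a0 = C.q a0 (C.c j x) := hs _ _
      refine ⟨?_, ?_, ?_⟩
      · rw [← q_c hC, h1]
        simp only [map_add, map_smul, LinearMap.add_apply, LinearMap.smul_apply, smul_eq_mul, h00, h5]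
        nlinarith [mul_nonneg h4 h2.le]
      · rw [← q_c hC, h1]
        simp only [map_add, map_smul, smul_eq_mul, h5]
        nlinarith [mul_nonneg h4 h2.le]
      · intro s hsS hsr h6
        rw [hrange] at hsr
        rw [h1]
        simp only [map_add, map_smul, LinearMap.add_apply, LinearMap.smul_apply, smul_eq_mul]
        nlinarith [mul_nonneg h4 (hwα s hsS hsr x hx h6).le]
  -- the group
  obtain ⟨N₁, hN₁, hmon⟩ := exists_mon C hC (α := (M : ℚ) • a0)
    (by rw [Nat.cast_smul_eq_nsmul]; exact C.L.nsmul_mem hL0 _) (by simp [h00])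
  obtain ⟨w, hw, hwind⟩ := exists_lift (q := C.q) hC.span h0 h00 haα hbα hr
  have hN₁Q : (0 : ℚ) < 2 * N₁ := by
    have : (0 : ℚ) < N₁ := by exact_mod_cast hN₁
    linarith
  have hu : ∀ k, ∃ u, C.c j u = (2 * N₁ : ℚ) • w k := fun k => by
    have h1 : (2 * N₁ : ℚ) • w k ∈ N := N.smul_mem _ ((hN _).2 ⟨(hw k).2.1, (hw k).2.2.1⟩)
    rw [← hrange] at h1
    exact h1
  choose u hu using hu
  obtain ⟨W, hW⟩ : ∃ W : (Fin r → ℤ) → (C.X j).NS, ∀ v, W v = ∑ k, (v k : ℚ) • u k :=
    ⟨_, fun v => rfl⟩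
  have hcW : ∀ v, C.c j (W v) = (2 * N₁ : ℚ) • ∑ k, (v k : ℚ) • w k := by
    intro v
    rw [hW, map_sum, Finset.smul_sum]
    refine Finset.sum_congr rfl fun k _ => ?_
    rw [map_smul, hu, smul_comm]
  have hwL : ∀ v : Fin r → ℤ, ∑ k, (v k : ℚ) • w k ∈ C.L := by
    intro v
    refine AddSubgroup.sum_mem _ fun k _ => ?_
    rw [Int.cast_smul_eq_zsmul]
    exact C.L.zsmul_mem (hw k).1 _
  have hwα0 : ∀ v : Fin r → ℤ, C.q a0 (∑ k, (v k : ℚ) • w k) = 0 := by
    intro v
    rw [map_sum]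
    refine Finset.sum_eq_zero fun k _ => ?_
    rw [map_smul, (hw k).2.2.2, smul_zero]
  have hWα : ∀ v, C.q a0 (C.c j (W v)) = 0 := fun v => by
    rw [hcW, map_smul, hwα0, smul_zero]
  have hWneg : ∀ v, C.c j (W (-v)) = - C.c j (W v) := by
    intro v
    rw [hcW, hcW, ← smul_neg, ← Finset.sum_neg_distrib]
    congr 1
    refine Finset.sum_congr rfl fun k _ => ?_
    rw [Pi.neg_apply, Int.cast_neg, neg_smul]
  have hγ : ∀ v, ∃ γ ∈ C.Mon, ∀ x,
      γ x = C.transvection (C.c j ((C.X j).classOf β)) (C.c j (W v)) x := by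
    intro v
    obtain ⟨γ, hγ, h1⟩ := hmon _ (hwL v) (by rw [map_smul, LinearMap.smul_apply, hwα0, smul_zero])
    refine ⟨γ, hγ, fun x => ?_⟩
    rw [h1, hcW, hcβ]
  have hMα : C.q ((M : ℚ) • a0) ((M : ℚ) • a0) = 0 := by simp [h00]
  have hMW : ∀ v, C.q ((M : ℚ) • a0) (C.c j (W v)) = 0 := fun v => by
    rw [map_smul, LinearMap.smul_apply, hWα, smul_zero]
  have hMWn : ∀ v, C.q ((M : ℚ) • a0) (-C.c j (W v)) = 0 := fun v => by
    rw [map_neg, hMW, neg_zero]
  have hample : ∀ v, ∀ x ∈ (C.X j).Ample,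
      (C.X j).transvection ((C.X j).classOf β) (W v) x ∈ (C.X j).Ample := by
    intro v x hx
    rw [hC.ample j x hx]
    have hT : C.c j ((C.X j).transvection ((C.X j).classOf β) (W v) x) =
        trans C.q ((M : ℚ) • a0) (C.c j (W v)) (C.c j x) := by
      rw [c_transvection hC, hcβ]
    obtain ⟨y, hy⟩ : ∃ y, y = (C.X j).transvection ((C.X j).classOf β) (W v) x := ⟨_, rfl⟩
    rw [← hy] at hT ⊢
    have hyy : C.q (C.c j y) (C.c j y) = C.q (C.c j x) (C.c j x) := by
      rw [hT]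
      exact trans_isometry hs hMα (hMW v) _ _
    have hxx := (hbase x hx).1
    have hyα : 0 < C.q a0 (C.c j y) := by
      rw [hT, trans_orth (by simp [h00]) (hWα v)]
      exact hαx x hx
    have hyA : 0 < C.q A (C.c j y) := by
      have hyp : 0 < C.q (C.c j y) (C.c j y) := hyy ▸ hxx
      rcases lt_trichotomy (C.q (C.c j y) A) 0 with h1 | h1 | h1
      · exfalso
        have h2 : 0 < C.q (-A) a0 :=
          light (sig hC) hab haa hbb (hcN y).1 (hcN y).2 hyp (by rw [map_neg, haA, neg_zero])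
            (by rw [map_neg, hbA, neg_zero]) haα hbα (by simpa using hAA) h00.ge
            (by rw [map_neg]; linarith) (by rw [hs]; exact hyα)
        rw [map_neg, LinearMap.neg_apply] at h2
        linarith
      · exfalso
        have hA0 : A ≠ 0 := by
          rintro rfl
          simp at hAA
        have := neg_of_orth (sig hC) haa hbb hyp hab (hcN y).1 (hcN y).2 haA hbA h1 hA0
        linarith
      · rw [hs]
        exact h1
    refine ⟨?_, ?_, ?_⟩
    · rw [← q_c hC, hyy]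
      exact hxx
    · rw [← q_c hC]
      exact light (sig hC) hab haa hbb haA hbA hAA (hcN x).1 (hcN x).2 (hcN y).1 (hcN y).2 hxx
        (hyy ▸ hxx.le) (hbase x hx).2.1 hyA
    · intro s hsS hsr h1
      rw [hrange] at hsr
      obtain ⟨γ, hγM, hγx⟩ := hγ (-v)
      have h2 : γ s = trans C.q ((M : ℚ) • a0) (-C.c j (W v)) s := by
        rw [hγx, hcβ, hWneg]
        rfl
      have h3 : γ s ∈ C.S := hC.wall_mon γ hγM s hsS
      have h4 : γ s ∈ N := by
        obtain ⟨h5, h6⟩ := (hN s).1 hsr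
        rw [h2, hN, trans_orth (by simp [haα]) (by rw [map_neg, (hcN _).1, neg_zero]),
          trans_orth (by simp [hbα]) (by rw [map_neg, (hcN _).2, neg_zero])]
        exact ⟨h5, h6⟩
      have h5 : C.q a0 (γ s) = C.q a0 s := by
        rw [h2, trans_orth (by simp [h00]) (by rw [map_neg, hWα, neg_zero])]
      have h6 : 0 < C.q a0 (γ s) := h5 ▸ hwα s hsS hsr x hx h1
      have h7 : 0 < C.q A (γ s) := by
        obtain ⟨h8, h9⟩ := (hN _).1 h4
        exact hadj _ h3 h8 h9 h6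
      have h8 := (hbase x hx).2.2 _ h3 h4 h7
      rw [hT, hs, trans_adjoint hs hMα (hMW v), ← h2, hs]
      exact h8
  obtain ⟨N₂, G, -, -, hG⟩ := hF.action j β hnef r W
    (fun v v' => by
      rw [hW, hW, hW, ← Finset.sum_add_distrib]
      refine Finset.sum_congr rfl fun k _ => ?_
      rw [Pi.add_apply, Int.cast_add, add_smul])
    (fun v => by rw [← q_c hC, hcβ, hMW])
    (fun v hv t h => hv (by
      have h1 : C.c j (W v) = t • (M : ℚ) • a0 := by rw [h, map_smul, hcβ]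
      rw [hcW] at h1
      refine hwind v ((2 * N₁ : ℚ)⁻¹ * (t * M)) ?_
      rw [← smul_smul, ← smul_smul, ← h1, smul_smul, inv_mul_cancel₀ hN₁Q.ne', one_smul]))
    hγ hample
  exact ⟨j, β, M, G, hM1, hnef, by rw [hcβ, ha0], hG⟩

/-- **From one member to all members.** Suppose that `κ(β) ≥ e` for all nef isotropic line bundles
with an action of `ℤ^r` (trivial on the quotients of sections), where `r + 4 ≤ b`, and that `κ ≥ e`
implies `κ ≥ n`. Then `κ = n` for all members and all nef isotropic line bundles. -/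
theorem kodaira (hC : C.Axioms) (hF : C.HasActions) {r e : ℕ} (hr : r + 4 ≤ finrank ℚ C.H)
    (hengine : ∀ (X : Variety ℂ (2 * n)), X.IsSymplecticVariety n → ∀ β, X.IsNefIsotropic β →
      ∀ G : X.Action r β, (∀ v (m : ℕ), ∀ f ∈ X.H0 (m • β), ∀ h ∈ X.H0 (m • β),
        G.γ v f * h = f * G.γ v h) → X.KodairaGE β e)
    (hab : ∀ j β, (C.X j).IsNefIsotropic β → (C.X j).KodairaGE β e → (C.X j).KodairaGE β n)
    (i : C.I) (α : (C.X i).Div) (hα : (C.X i).IsNefIsotropic α) : (C.X i).KodairaGE α n := by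
  obtain ⟨j, β, M, G, hM, hβ, hc, hG⟩ := exists_member hC hF i α hα r hr
  have h1 := hab j β hβ (hengine _ (hC.variety j) β hβ G hG)
  have h2 := hC.matsushita i j (M • α) β (isNefIsotropic_nsmul hM hα) hβ
    (by rw [Variety.classOf_nsmul, map_smul, hc]) h1
  exact kodairaGE_of_nsmul hM h2

end SymplecticClass

end Pool.Agent.SYZC
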